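import Pool.Agent.NH44.BT.Pub

/-!
# A subnormal block Toeplitz operator with `Φ = B Φ*` which is neither normal nor analytic

The definitions are in `Pool.Agent.NH44.BT.Base` (`Ci`, `mu`, `zc`, `Cn`, `IsAnalytic`,
`IsBlaschkePotapov`) and `Pool.Agent.NH44.BT.Pub` (`LTwo`, `Hardy`, `IsToep`, `NormalOp`,
`SubnormalOp`, `IrreducibleOp`).

Let `b(z) = (z - s) / (1 - s z)`, `0 < s < 1`, and let `Φ(z)` be the matrix with rows
`(0, z conj b(z))` and `(b(z), 0)`. Then `Φ = z Φ*` on the circle. The operator `T_Φ` is unitarily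
equivalent to the weighted shift with the weights `(1 - s ^ 2) ^ (1/2), 1, 1, 1, ...`, which is
subnormal: its Berger measure is `s ^ 2 δ_0 + (1 - s ^ 2) δ_1`. If `S` is the shift and `D` is the
multiplication by `b` on the scalar Hardy space, then `T_Φ (f, g) = (D* S g, D f)`, and the isometry
`(f, g) ↦ (D* S g, f, (1 - D D*) S g)` intertwines `T_Φ` with the restriction of the normal operator
`(x, y, c) ↦ (z y, x, 0)` of `L^2 ⊕ L^2 ⊕ L^2`.
-/

set_option autoImplicit false

open MeasureTheory AddCircle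
open scoped ComplexConjugate ENNReal InnerProductSpace

namespace Pool.Agent.Results.MP_e84edf_an.IrreducibleCounterexample

open Pool.Agent.NH44.BT

/-- For every `0 < s < 1`, with `b(z) = (z - s) / (1 - s z)`, the continuous matrix function
`Φ(z) = [[0, z conj b(z)], [b(z), 0]]` satisfies `Φ = B Φ*` on the circle for the finite
Blaschke–Potapov product `B(z) = z I`, it is not analytic, and the block Toeplitz operator `T_Φ` on
the Hardy space with values in `ℂ ^ 2` is subnormal, is not normal, and is irreducible. -/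
theorem result (s : ℝ) (h0 : 0 < s) (h1 : s < 1) (b : Ci → ℂ)
    (hb : ∀ t, b t = (zc t - s) / (1 - s * zc t)) (Φ : Ci → Matrix (Fin 2) (Fin 2) ℂ)
    (hΦ : ∀ t, Φ t = !![0, zc t * conj (b t); b t, 0]) :
    Continuous Φ ∧
    (∃ B : ℂ → Matrix (Fin 2) (Fin 2) ℂ, B = (fun w => w • (1 : Matrix (Fin 2) (Fin 2) ℂ)) ∧
      IsBlaschkePotapov B ∧ ∀ t, Φ t = B (zc t) * (Φ t).conjTranspose) ∧
    ¬ IsAnalytic Φ ∧
    ∃ T : Op (Hardy 2), IsToep Φ T ∧ SubnormalOp T ∧ ¬ NormalOp T ∧ IrreducibleOp T := by
  have e1 : b = mob s := funext hb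
  have e2 : Φ = Phi b := funext hΦ
  subst e2 e1
  have hI := mob_inner h0 h1
  refine ⟨?_, ⟨_, rfl, blaschke, fun t => Phi_eq t⟩, ?_, Tb hI, toeplitz hI, subnormal hI,
    not_normal hI, irreducible h0 h1⟩
  · have c1 := mob_cont h0 h1
    have c2 : Continuous fun t => zc t * conj (mob s t) :=
      zc_cont.mul (Complex.continuous_conj.comp c1)
    refine continuous_matrix fun i j => ?_
    fin_cases i <;> fin_cases j
    · exact continuous_const
    · exact c2
    · exact c1
    · exact continuous_const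
  · refine not_analytic (j := 2) (by norm_num) ?_
    rw [mob_two h0 h1]
    have h2 : (s * (1 - s * s) : ℝ) ≠ 0 := by
      have : 0 < s * (1 - s * s) := mul_pos h0 (by nlinarith)
      exact this.ne'
    exact_mod_cast h2

end Pool.Agent.Results.MP_e84edf_an.IrreducibleCounterexample
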